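import Pool.Agent.MP_89e1e6_lc.Main2

set_option autoImplicit false

namespace Pool.Agent.Results.MP_89e1e6_lc.Excursions

open Pool.Agent.MP_89e1e6_lc

/-- One-tape machines that scan each cell boundedly often between two visits to cell `0` have
circuits of size `O(T log T / log log log T)`. -/
theorem result : ∀ (Q Γ : Type) [Fintype Q] [Fintype Γ] (M : OneTape Q Γ) (c : ℕ)
    (L : Set (List Bool)) (T : ℕ → ℕ), M.Visits c → (∀ n, n ≤ T n) → M.Decides L T →
    ∃ (a : ℝ) (n₀ : ℕ), ∀ n, n₀ ≤ n → ∃ C : Circuit n,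
      (∀ x : List Bool, x.length = n → (C.eval x = true ↔ x ∈ L)) ∧ (C.gates.length : ℝ) ≤
        a * (T n * Real.log (T n) / Real.log (Real.log (Real.log (T n)))) :=
  fun _ _ _ _ M _ L T hc hT h => M.main hc L T hT h

end Pool.Agent.Results.MP_89e1e6_lc.Excursions
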